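import Mathlib

/-!
Growth of finitely generated groups: balls, finitely presented approximations with the same ball,
sections, and subgroups of wreath products with finite groups.
-/

namespace Pool.Agent.Q117.UG

open Subgroup Group

/-- The ball of radius `n` for a subset `X`. -/
def ball {G : Type*} [Group G] (X : Set G) (n : ℕ) : Set G :=
  {g : G | ∃ l : List G, l.length ≤ n ∧ (∀ x ∈ l, x ∈ X ∨ x⁻¹ ∈ X) ∧ l.prod = g}

section ball

variable {G H : Type*} [Group G] [Group H]

lemma one_mem_ball (X : Set G) (n : ℕ) : (1 : G) ∈ ball X n :=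
  ⟨[], by simp, by simp, by simp⟩

lemma ball_mono (X : Set G) {m n : ℕ} (h : m ≤ n) : ball X m ⊆ ball X n := by
  rintro g ⟨l, h1, h2, h3⟩
  exact ⟨l, h1.trans h, h2, h3⟩

lemma ball_zero (X : Set G) : ball X 0 = {1} := by
  ext g
  constructor
  · rintro ⟨l, h1, -, rfl⟩
    have : l = [] := List.length_eq_zero_iff.1 (Nat.le_zero.1 h1)
    simp [this]
  · rintro rfl; exact one_mem_ball X 0

lemma cons_mem_ball {X : Set G} {n : ℕ} {x g : G} (hx : x ∈ X ∨ x⁻¹ ∈ X) (hg : g ∈ ball X n) :
    x * g ∈ ball X (n + 1) := by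
  obtain ⟨l, h1, h2, rfl⟩ := hg
  refine ⟨x :: l, by simpa using h1, ?_, by simp⟩
  intro y hy
  rcases List.mem_cons.1 hy with rfl | hy
  · exact hx
  · exact h2 y hy

lemma ball_induction {X : Set G} {p : ℕ → G → Prop} (h1 : ∀ n, p n 1)
    (h2 : ∀ n x g, (x ∈ X ∨ x⁻¹ ∈ X) → g ∈ ball X n → p n g → p (n + 1) (x * g)) :
    ∀ n g, g ∈ ball X n → p n g := by
  suffices h : ∀ (l : List G) (n : ℕ), l.length ≤ n → (∀ x ∈ l, x ∈ X ∨ x⁻¹ ∈ X) →
      p n l.prod by
    rintro n g ⟨l, hl, hx, rfl⟩
    exact h l n hl hx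
  intro l
  induction l with
  | nil => intro n _ _; simpa using h1 n
  | cons a t ih =>
    intro n hn hx
    obtain ⟨m, rfl⟩ : ∃ m, n = m + 1 := ⟨n - 1, by simp at hn; omega⟩
    have hm : t.length ≤ m := by simpa using hn
    have ht : ∀ x ∈ t, x ∈ X ∨ x⁻¹ ∈ X := fun x h => hx x (List.mem_cons_of_mem _ h)
    rw [List.prod_cons]
    exact h2 m a t.prod (hx a List.mem_cons_self) ⟨t, hm, ht, rfl⟩ (ih m hm ht)

lemma ball_finite {X : Set G} (hX : X.Finite) (n : ℕ) : (ball X n).Finite := by
  induction n with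
  | zero => rw [ball_zero]; exact Set.finite_singleton 1
  | succ n ih =>
    have hY : (X ∪ X⁻¹ : Set G).Finite := hX.union hX.inv
    refine ((ih.union (Set.Finite.mul hY ih))).subset ?_
    rintro g ⟨l, h1, h2, rfl⟩
    cases l with
    | nil => exact Or.inl (by simpa using one_mem_ball X n)
    | cons a t =>
      refine Or.inr ?_
      rw [List.prod_cons]
      refine Set.mul_mem_mul ?_ ⟨t, by simpa using h1, fun x h => h2 x (List.mem_cons_of_mem _ h),
        rfl⟩
      rcases h2 a List.mem_cons_self with h | h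
      · exact Or.inl h
      · exact Or.inr (by simpa using h)

lemma ball_image (f : G →* H) (X : Set G) (n : ℕ) : ball (f '' X) n = f '' ball X n := by
  apply Set.Subset.antisymm
  · intro g hg
    refine ball_induction (X := f '' X) (p := fun n g => g ∈ f '' ball X n) ?_ ?_ n g hg
    · intro n; exact ⟨1, one_mem_ball X n, map_one f⟩
    · rintro n x g hx hg ⟨y, hy, rfl⟩
      rcases hx with ⟨z, hz, rfl⟩ | ⟨z, hz, hzx⟩
      · exact ⟨z * y, cons_mem_ball (Or.inl hz) hy, by simp⟩
      · refine ⟨z⁻¹ * y, cons_mem_ball (Or.inr (by simpa using hz)) hy, ?_⟩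
        rw [map_mul, map_inv, hzx, inv_inv]
  · rintro _ ⟨g, hg, rfl⟩
    refine ball_induction (X := X) (p := fun n g => f g ∈ ball (f '' X) n) ?_ ?_ n g hg
    · intro n; rw [map_one]; exact one_mem_ball _ n
    · intro n x g hx hg h
      rw [map_mul]
      refine cons_mem_ball ?_ h
      rcases hx with h | h
      · exact Or.inl ⟨x, h, rfl⟩
      · exact Or.inr ⟨x⁻¹, h, map_inv f x⟩

lemma ball_ncard_pos {X : Set G} (hX : X.Finite) (n : ℕ) : 1 ≤ (ball X n).ncard :=
  (Set.ncard_pos (ball_finite hX n)).2 ⟨1, one_mem_ball X n⟩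

/-- A surjection which is injective on balls. -/
lemma ball_ncard_le_of_image (f : G →* H) {X : Set G} (n : ℕ)
    (h : Set.InjOn f (ball X n)) : (ball X n).ncard ≤ (ball (f '' X) n).ncard := by
  rw [ball_image, h.ncard_image]

end ball

/-- Finitely presented groups with the same ball, in which finitely many given relations hold. -/
theorem approx {G : Type} [Group G] {α : Type} [Finite α] (L : FreeGroup α →* G)
    (hL : Function.Surjective L) (n : ℕ) (R : Set (FreeGroup α)) (hR : R.Finite)
    (hR' : ∀ r ∈ R, L r = 1) :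
    ∃ (Q : Type) (_ : Group Q) (q : FreeGroup α →* Q) (p : Q →* G),
      Function.Surjective q ∧ Function.Surjective p ∧ (∀ w, p (q w) = L w) ∧
      IsFinitelyPresented Q ∧ (∀ r ∈ R, q r = 1) ∧
      closure (q '' Set.range FreeGroup.of) = ⊤ ∧
      (ball (q '' Set.range FreeGroup.of) n).ncard ≤ (ball (L '' Set.range FreeGroup.of) n).ncard := by
  classical
  set S : Set (FreeGroup α) := Set.range FreeGroup.of with hS
  have hSfin : S.Finite := Set.finite_range _
  have hSgen : closure S = ⊤ := FreeGroup.closure_range_of α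
  set R1 : Set (FreeGroup α) := (fun p : FreeGroup α × FreeGroup α => p.1 * p.2⁻¹) ''
    {p : FreeGroup α × FreeGroup α | p.1 ∈ ball S n ∧ p.2 ∈ ball S n ∧ L p.1 = L p.2} with hR1
  have hR1fin : R1.Finite := by
    apply Set.Finite.image
    refine ((ball_finite hSfin n).prod (ball_finite hSfin n)).subset ?_
    rintro ⟨a, b⟩ ⟨h1, h2, -⟩
    exact ⟨h1, h2⟩
  have hR1L : ∀ r ∈ R1, L r = 1 := by
    rintro _ ⟨⟨a, b⟩, ⟨-, -, h⟩, rfl⟩
    have h' : L a = L b := h
    simp only [map_mul, map_inv]
    rw [h', mul_inv_cancel]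
  set N : Subgroup (FreeGroup α) := normalClosure (R ∪ R1) with hN
  have hNL : N ≤ L.ker := by
    apply normalClosure_le_normal
    rintro r (h | h)
    · exact hR' r h
    · exact hR1L r h
  refine ⟨FreeGroup α ⧸ N, inferInstance, QuotientGroup.mk' N, QuotientGroup.lift N L hNL,
    QuotientGroup.mk'_surjective N, ?_, ?_, ?_, ?_, ?_, ?_⟩
  · intro g
    obtain ⟨w, hw⟩ := hL g
    exact ⟨QuotientGroup.mk' N w, by simpa using hw⟩
  · intro w
    simp
  · exact IsFinitelyPresented.quotient N ⟨R ∪ R1, hR.union hR1fin, rfl⟩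
  · intro r hr
    exact (QuotientGroup.eq_one_iff r).2 (subset_normalClosure (Or.inl hr))
  · rw [← MonoidHom.map_closure, hSgen, ← MonoidHom.range_eq_map, MonoidHom.range_eq_top]
    exact QuotientGroup.mk'_surjective N
  · have h1 := ball_ncard_le_of_image (QuotientGroup.lift N L hNL)
      (X := QuotientGroup.mk' N '' S) n ?_
    · have h2 : (QuotientGroup.lift N L hNL) '' (QuotientGroup.mk' N '' S) = L '' S := by
        rw [Set.image_image]
        apply Set.image_congr
        intro a _
        simp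
      rwa [h2] at h1
    · rw [ball_image]
      rintro _ ⟨a, ha, rfl⟩ _ ⟨b, hb, rfl⟩ h
      have h' : L a = L b := by simpa using h
      have h3 : a * b⁻¹ ∈ N := subset_normalClosure (Or.inr ⟨(a, b), ⟨ha, hb, h'⟩, rfl⟩)
      have h4 := (QuotientGroup.eq_one_iff (N := N) (a * b⁻¹)).2 h3
      have h5 : QuotientGroup.mk' N (a * b⁻¹) = 1 := h4
      rw [map_mul, map_inv, mul_inv_eq_one] at h5
      exact h5

/-- Virtually nilpotent groups: quotients of subgroups. -/
theorem vn_section {H L G : Type*} [Group H] [Group L] [Group G] (hH : IsVirtuallyNilpotent H)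
    (i : L →* H) (hi : Function.Injective i) (f : L →* G) (hf : Function.Surjective f) :
    IsVirtuallyNilpotent G := by
  obtain ⟨K, hK, hKf⟩ := hH
  have h1 : (K.comap i).index ≠ 0 := by
    rw [Subgroup.index_comap]
    have : K.IsFiniteRelIndex i.range := isFiniteRelIndex_of_finiteIndex
    exact relIndex_ne_zero
  have h2 : IsNilpotent (K.comap i) := by
    apply Subgroup.isNilpotent_of_ker_le_center (i.subgroupComap K)
    have e : Function.Injective (i.subgroupComap K) := by
      intro a b h
      apply Subtype.ext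
      apply hi
      exact congrArg Subtype.val h
    rw [(MonoidHom.ker_eq_bot_iff _).2 e]
    exact bot_le
  refine ⟨(K.comap i).map f, ?_, ?_⟩
  · exact Group.nilpotent_of_surjective (f.subgroupMap (K.comap i))
      (f.subgroupMap_surjective (K.comap i))
  · exact ⟨fun h => by
      have := Subgroup.index_map_dvd (K.comap i) hf
      rw [h, zero_dvd_iff] at this
      exact h1 this⟩

end Pool.Agent.Q117.UG
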