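import Pool.Agent.Q117.UG.Wreath
import Pool.Agent.H746UG.Rate

/-!
The two-generated subgroup of a wreath product with a finite cyclic group: exponential growth rate
and derived length.
-/

namespace Pool.Agent.Q117.UG

open Subgroup Group Filter Topology
open scoped Pointwise commutatorElement

section rate

variable {G : Type*} [Group G]

lemma fin_pow {S : Set G} (hS : S.Finite) (n : ℕ) : (S ^ n).Finite := by
  induction n with
  | zero => rw [pow_zero]; exact Set.finite_one
  | succ n ih => rw [pow_succ]; exact ih.mul hS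

lemma pow_union_one (S : Set G) (n : ℕ) :
    (S ∪ {1}) ^ n ⊆ ⋃ k ∈ Finset.range (n + 1), S ^ k := by
  induction n with
  | zero => intro x hx; simpa using hx
  | succ n ih =>
    rw [pow_succ]
    rintro _ ⟨a, ha, b, hb, rfl⟩
    have := ih ha
    simp only [Set.mem_iUnion, Finset.mem_range, exists_prop] at this ⊢
    obtain ⟨k, hk, hak⟩ := this
    rcases hb with hb | hb
    · exact ⟨k + 1, by omega, by rw [pow_succ]; exact Set.mul_mem_mul hak hb⟩
    · rw [Set.mem_singleton_iff] at hb
      subst hb
      exact ⟨k, by omega, by simpa using hak⟩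

lemma card_pow_mono {S : Set G} (hS : S.Finite) (hne : S.Nonempty) {k n : ℕ} (h : k ≤ n) :
    (S ^ k).ncard ≤ (S ^ n).ncard := by
  induction n, h using Nat.le_induction with
  | base => exact le_rfl
  | succ n _ ih =>
    refine ih.trans ?_
    obtain ⟨s, hs⟩ := hne
    have hfin : (S ^ (n + 1)).Finite := fin_pow hS _
    have h1 : (fun x => x * s) '' (S ^ n) ⊆ S ^ (n + 1) := by
      rintro _ ⟨x, hx, rfl⟩
      rw [pow_succ]
      exact Set.mul_mem_mul hx hs
    calc (S ^ n).ncard = ((fun x => x * s) '' (S ^ n)).ncard :=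
          (Set.ncard_image_of_injective _ (mul_left_injective s)).symm
      _ ≤ _ := Set.ncard_le_ncard h1 hfin

lemma card_union_one {S : Set G} (hS : S.Finite) (hne : S.Nonempty) (n : ℕ) :
    ((S ∪ {1}) ^ n).ncard ≤ (n + 1) * (S ^ n).ncard := by
  have hfin : (⋃ k ∈ Finset.range (n + 1), S ^ k).Finite :=
    Set.Finite.biUnion (Finset.finite_toSet _) fun k _ => fin_pow hS k
  refine (Set.ncard_le_ncard (pow_union_one S n) hfin).trans ?_
  have h1 : ∀ s : Finset ℕ, s ⊆ Finset.range (n + 1) →
      (⋃ k ∈ s, S ^ k).ncard ≤ s.card * (S ^ n).ncard := by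
    intro s
    induction s using Finset.induction_on with
    | empty => intro _; simp
    | insert a s ha ih =>
      intro hsub
      rw [Finset.set_biUnion_insert, Finset.card_insert_of_notMem ha]
      refine (Set.ncard_union_le _ _).trans ?_
      have h2 := ih ((Finset.subset_insert _ _).trans hsub)
      have h3 : (S ^ a).ncard ≤ (S ^ n).ncard := card_pow_mono hS hne (by
        have := hsub (Finset.mem_insert_self a s)
        rw [Finset.mem_range] at this
        omega)
      rw [add_mul, one_mul]
      omega
  simpa using h1 (Finset.range (n + 1)) subset_rfl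

end rate

section wreath

variable {G : Type} [Group G] {S : Type} [Group S] {ι : Type} [MulAction S ι]

lemma left_mem_pow {X : Set G} {T : Set (Wr G S ι)} (hT : ∀ z ∈ T, ∀ i, z.left i ∈ X) (n : ℕ) :
    ∀ w ∈ T ^ n, ∀ i, w.left i ∈ X ^ n := by
  induction n with
  | zero => intro w hw i; rw [pow_zero] at hw ⊢; rw [Set.mem_one] at hw ⊢; rw [hw]; rfl
  | succ n ih =>
    intro w hw i
    rw [pow_succ] at hw ⊢
    obtain ⟨a, ha, b, hb, rfl⟩ := hw
    show (a * b).left i ∈ _
    rw [mul_left_apply]
    exact Set.mul_mem_mul (ih a ha i) (hT b hb _)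

theorem wreath_pow [Finite S] [Finite ι] {X : Set G} (hX : X.Finite) {T : Set (Wr G S ι)}
    (hT : ∀ z ∈ T, ∀ i, z.left i ∈ X) (n : ℕ) :
    (T ^ n).ncard ≤ Nat.card S * (X ^ n).ncard ^ Nat.card ι := by
  classical
  have hfin : Finite ↥(X ^ n) := fin_pow hX n
  let F : ↥(T ^ n) → (ι → ↥(X ^ n)) × S :=
    fun w => (fun i => ⟨w.1.left i, left_mem_pow hT n w.1 w.2 i⟩, w.1.right)
  have hF : Function.Injective F := by
    intro a b h
    apply Subtype.ext
    apply SemidirectProduct.ext
    · funext i
      have := congrFun (congrArg Prod.fst h) i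
      exact congrArg Subtype.val this
    · exact congrArg Prod.snd h
  have h1 := Nat.card_le_card_of_injective F hF
  rw [Nat.card_prod, Nat.card_fun] at h1
  rw [mul_comm]
  exact h1

lemma closure_pow {W : Type*} [Group W] (T : Set W) (n : ℕ) :
    (((closure T).subtype ⁻¹' T) ^ n).ncard = (T ^ n).ncard := by
  have h1 : (closure T).subtype '' ((closure T).subtype ⁻¹' T) = T := by
    rw [Set.image_preimage_eq_inter_range]
    apply Set.inter_eq_left.2
    intro x hx
    exact ⟨⟨x, subset_closure hx⟩, rfl⟩
  conv_rhs => rw [← h1, ← Set.image_pow]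
  exact (Set.ncard_image_of_injective _ (closure T).subtype_injective).symm

lemma derived_pi (r : ℕ) (h : derivedSeries G r = ⊥) : derivedSeries (ι → G) r = ⊥ := by
  rw [eq_bot_iff]
  intro v hv
  rw [Subgroup.mem_bot]
  funext i
  have h1 : Pi.evalMonoidHom (fun _ : ι => G) i v ∈ derivedSeries G r :=
    map_derivedSeries_le_derivedSeries (Pi.evalMonoidHom (fun _ : ι => G) i) r ⟨v, hv, rfl⟩
  rw [h, Subgroup.mem_bot] at h1
  exact h1

lemma derived_wreath (hS : ∀ a b : S, a * b = b * a) (r : ℕ) (h : derivedSeries G r = ⊥) :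
    derivedSeries (Wr G S ι) (r + 1) = ⊥ := by
  have h1 : ∀ k, derivedSeries (Wr G S ι) (k + 1) ≤
      (derivedSeries (ι → G) k).map (SemidirectProduct.inl : (ι → G) →* Wr G S ι) := by
    intro k
    induction k with
    | zero =>
      rw [derivedSeries_zero, ← MonoidHom.range_eq_map, derivedSeries_succ, derivedSeries_zero,
        SemidirectProduct.range_inl_eq_ker_rightHom, commutator_le]
      intro a _ b _
      rw [MonoidHom.mem_ker, map_commutatorElement, commutatorElement_eq_one_iff_mul_comm]
      exact hS _ _
    | succ k ih =>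
      rw [derivedSeries_succ, derivedSeries_succ (ι → G), map_commutator]
      exact commutator_mono ih ih
  have h2 := h1 r
  rw [derived_pi r h, Subgroup.map_bot] at h2
  exact le_bot_iff.1 h2

lemma derived_sub {W : Type*} [Group W] (H : Subgroup W) (r : ℕ) (h : derivedSeries W r = ⊥) :
    derivedSeries H r = ⊥ := by
  rw [eq_bot_iff]
  intro x hx
  have h1 : H.subtype x ∈ derivedSeries W r :=
    map_derivedSeries_le_derivedSeries H.subtype r ⟨x, hx, rfl⟩
  rw [h, Subgroup.mem_bot] at h1
  rw [Subgroup.mem_bot]
  exact H.subtype_injective (h1.trans (map_one _).symm)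

end wreath

/-- The two-generated group attached to `G` and `X`: growth rate and derived length. -/
theorem two_solv {G : Type} [Group G] (m : ℕ) (hm : 1 ≤ m) (X : Finset G) (hXm : X.card ≤ m)
    (hgen : closure (X : Set G) = ⊤) (hG : ¬ IsVirtuallyNilpotent G) (r : ℕ)
    (hr : derivedSeries G r = ⊥) :
    ∃ (H : Type) (_ : Group H) (Y : Finset H), closure (Y : Set H) = ⊤ ∧
      ¬ IsVirtuallyNilpotent H ∧ Y.card ≤ 2 ∧ derivedSeries H (r + 1) = ⊥ ∧
      H746UG.rho (Y : Set H) ≤ m * H746UG.rho (X : Set G) := by
  classical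
  have : NeZero m := ⟨by omega⟩
  let S : Type := Multiplicative (ZMod m)
  have : Fintype S := inferInstanceAs (Fintype (Multiplicative (ZMod m)))
  have hN : Nat.card S = m := (Nat.card_congr Multiplicative.toAdd).trans (Nat.card_zmod m)
  have hcard : Fintype.card S = m := by
    rw [← Nat.card_eq_fintype_card]; exact hN
  obtain ⟨e⟩ : Nonempty (X ↪ S) := by
    apply Function.Embedding.nonempty_of_card_le
    rw [Fintype.card_coe, hcard]; exact hXm
  let x : S → G := Function.extend e (fun a : X => (a : G)) (fun _ => 1)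
  have hx1 : ∀ a : X, x (e a) = a := fun a => e.injective.extend_apply _ _ a
  have hx2 : ∀ i, x i ∈ X ∨ x i = 1 := by
    intro i
    by_cases h : ∃ a, e a = i
    · obtain ⟨a, rfl⟩ := h
      left; rw [hx1]; exact a.2
    · right; exact Function.extend_apply' _ _ _ h
  let s : S := Multiplicative.ofAdd 1
  have hs : ∀ t : S, ∃ k : ℤ, s ^ k = t := by
    intro t
    refine ⟨((Multiplicative.toAdd t : ZMod m).val : ℤ), ?_⟩
    apply Multiplicative.toAdd.injective
    show ((Multiplicative.toAdd t : ZMod m).val : ℤ) • (1 : ZMod m) = Multiplicative.toAdd t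
    rw [zsmul_eq_mul, mul_one]
    simp
  let T : Set (Wr G S S) := {SemidirectProduct.inr s, SemidirectProduct.inl x}
  have hTfin : T.Finite := Set.toFinite _
  have hYfin : ((closure T).subtype ⁻¹' T).Finite :=
    hTfin.preimage ((closure T).subtype_injective.injOn)
  have hXne : X.Nonempty := by
    by_contra hX
    rw [Finset.not_nonempty_iff_eq_empty] at hX
    subst hX
    apply hG
    have hsub : Subsingleton G := by
      rw [Finset.coe_empty, Subgroup.closure_empty] at hgen
      exact ⟨fun a b => by
        have ha : a ∈ (⊥ : Subgroup G) := hgen ▸ Subgroup.mem_top a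
        have hb : b ∈ (⊥ : Subgroup G) := hgen ▸ Subgroup.mem_top b
        rw [Subgroup.mem_bot] at ha hb
        rw [ha, hb]⟩
    exact (inferInstance : IsNilpotent G).isVirtuallyNilpotent
  refine ⟨closure T, inferInstance, hYfin.toFinset, ?_, ?_, ?_, ?_, ?_⟩
  · rw [Set.Finite.coe_toFinset]; exact closure_pre_eq_top T
  · refine not_vn hgen (closure T) (1 : S) ?_ hG
    intro y hy
    let a : X := ⟨y, hy⟩
    have hinr : ∀ t : S, (SemidirectProduct.inr t : Wr G S S) ∈ closure T := by
      intro t
      obtain ⟨k, rfl⟩ := hs t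
      rw [map_zpow]
      exact (closure T).zpow_mem (subset_closure (Or.inl rfl)) k
    have hinl : (SemidirectProduct.inl x : Wr G S S) ∈ closure T := subset_closure (Or.inr rfl)
    refine ⟨fun i => x ((e a)⁻¹⁻¹ • i), ?_, ?_⟩
    · rw [← conj_inl]
      exact (closure T).mul_mem ((closure T).mul_mem (hinr _) hinl) ((closure T).inv_mem (hinr _))
    · show x ((e a)⁻¹⁻¹ * 1) = y
      rw [inv_inv, mul_one, hx1]
  · have h1 : hYfin.toFinset.card = ((closure T).subtype ⁻¹' T).ncard := by
      rw [Set.ncard_eq_toFinset_card _ hYfin]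
    rw [h1]
    have h2 : ((closure T).subtype ⁻¹' T).ncard ≤ T.ncard := by
      rw [← Set.ncard_image_of_injective _ (closure T).subtype_injective]
      exact Set.ncard_le_ncard (Set.image_preimage_subset _ _) hTfin
    refine h2.trans ?_
    exact (Set.ncard_insert_le _ _).trans (by rw [Set.ncard_singleton])
  · apply derived_sub
    exact derived_wreath (fun a b => mul_comm (G := Multiplicative (ZMod m)) a b) r hr
  · rw [Set.Finite.coe_toFinset]
    set A : Set (closure T) := (closure T).subtype ⁻¹' T with hA
    have hcnt : ∀ n, Nat.card ↥(A ^ n) ≤ m * ((n + 1) * Nat.card ↥((X : Set G) ^ n)) ^ m := by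
      intro n
      have h1 := wreath_pow (S := S) (ι := S) (X := (X : Set G) ∪ {1})
        (X.finite_toSet.union (Set.finite_singleton 1)) (T := T) ?_ n
      · rw [hN] at h1
        have h2 := card_union_one (S := (X : Set G)) X.finite_toSet hXne n
        have h3 : Nat.card ↥(A ^ n) = (T ^ n).ncard := closure_pow T n
        rw [h3]
        refine h1.trans ?_
        gcongr
        exact h2
      · rintro z (rfl | rfl) i
        · right; rfl
        · show x i ∈ (X : Set G) ∪ {1}
          rcases hx2 i with h | h
          · left; exact h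
          · right; exact h
    have hpos : ∀ n, 1 ≤ Nat.card ↥((X : Set G) ^ n) := by
      intro n
      have hf : Finite ↥((X : Set G) ^ n) := fin_pow X.finite_toSet n
      have hn : Nonempty ↥((X : Set G) ^ n) := (Set.Nonempty.pow (s := (X : Set G)) (by exact_mod_cast hXne) (n := n)).to_subtype
      exact Nat.card_pos
    have hle : ∀ n : ℕ, Real.log (Nat.card ↥(A ^ n)) / n ≤
        (Real.log m / n + m * (Real.log (n + 1) / n)) +
          m * (Real.log (Nat.card ↥((X : Set G) ^ n)) / n) := by
      intro n
      rcases Nat.eq_zero_or_pos n with rfl | hn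
      · simp
      have hn' : (0 : ℝ) < n := by exact_mod_cast hn
      have hm' : (0 : ℝ) < m := by exact_mod_cast hm
      have hc : (0 : ℝ) < Nat.card ↥((X : Set G) ^ n) := by exact_mod_cast hpos n
      have h1 : Real.log (Nat.card ↥(A ^ n)) ≤
          Real.log (m * ((n + 1) * Nat.card ↥((X : Set G) ^ n)) ^ m) := by
        rcases Nat.eq_zero_or_pos (Nat.card ↥(A ^ n)) with h0 | h0
        · rw [h0, Nat.cast_zero, Real.log_zero]
          apply Real.log_nonneg
          have : 1 ≤ m * ((n + 1) * Nat.card ↥((X : Set G) ^ n)) ^ m :=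
            Nat.mul_pos hm (pow_pos (Nat.mul_pos (Nat.succ_pos n) (hpos n)) m)
          exact_mod_cast this
        · apply Real.log_le_log (by exact_mod_cast h0)
          exact_mod_cast hcnt n
      rw [Real.log_mul hm'.ne' (by positivity), Real.log_pow,
        Real.log_mul (by positivity) hc.ne'] at h1
      have h2 : (Real.log m / n + m * (Real.log (n + 1) / n)) +
          m * (Real.log (Nat.card ↥((X : Set G) ^ n)) / n) =
          (Real.log m + m * (Real.log (n + 1) + Real.log (Nat.card ↥((X : Set G) ^ n)))) / n := by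
        field_simp
        ring
      rw [h2]
      gcongr
    have hz : Tendsto (fun n : ℕ => Real.log m / n + m * (Real.log (n + 1) / n)) atTop (𝓝 0) := by
      have h1 : Tendsto (fun n : ℕ => Real.log m / (n : ℝ)) atTop (𝓝 0) :=
        tendsto_const_nhds.div_atTop tendsto_natCast_atTop_atTop
      have h2 : Tendsto (fun n : ℕ => Real.log ((n : ℝ) + 1) / n) atTop (𝓝 0) := by
        have h3 : Tendsto (fun x : ℝ => Real.log x / x) atTop (𝓝 0) := by
          simpa using Real.isLittleO_log_id_atTop.tendsto_div_nhds_zero
        have h4 : Tendsto (fun n : ℕ => (n : ℝ) + 1) atTop atTop :=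
          tendsto_atTop_add_const_right _ _ tendsto_natCast_atTop_atTop
        have h5 := h3.comp h4
        have h6 : Tendsto (fun n : ℕ => ((n : ℝ) + 1) / n) atTop (𝓝 1) := by
          have : Tendsto (fun n : ℕ => 1 + 1 / (n : ℝ)) atTop (𝓝 (1 + 0)) :=
            tendsto_const_nhds.add tendsto_one_div_atTop_nhds_zero_nat
          rw [add_zero] at this
          refine this.congr' ?_
          filter_upwards [eventually_gt_atTop 0] with n hn
          have : (n : ℝ) ≠ 0 := by exact_mod_cast hn.ne'
          field_simp
        have h7 := h5.mul h6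
        rw [zero_mul] at h7
        refine h7.congr' ?_
        filter_upwards [eventually_gt_atTop 0] with n hn
        have h8 : (n : ℝ) ≠ 0 := by exact_mod_cast hn.ne'
        have h9 : (n : ℝ) + 1 ≠ 0 := by positivity
        simp only [Function.comp]
        field_simp
      have h3 := h1.add (h2.const_mul (m : ℝ))
      simpa using h3
    have h1 := H746UG.tendsto_rho A
    have h2 := hz.add ((H746UG.tendsto_rho (X : Set G)).const_mul (m : ℝ))
    rw [zero_add] at h2
    exact le_of_tendsto_of_tendsto' h1 h2 hle

end Pool.Agent.Q117.UG
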