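import Pool.Agent.Q117.UG.Core

/-!
Subgroups of permutational wreath products `G ≀ S` with finite groups `S`: the growth function is
bounded by a power of the growth function of `G`.
-/

namespace Pool.Agent.Q117.UG

open Subgroup Group

section

variable (G : Type) [Group G] (S : Type) [Group S] (ι : Type) [MulAction S ι]

/-- The wreath product of `G` with `S` acting on `ι`. -/
abbrev Wr : Type := SemidirectProduct (ι → G) S (mulAutArrow (G := S) (A := ι) (M := G))

end

section

variable {G : Type} [Group G] {S : Type} [Group S] {ι : Type} [MulAction S ι]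

lemma mul_left_apply (a b : Wr G S ι) (i : ι) :
    (a * b).left i = a.left i * b.left (a.right⁻¹ • i) := rfl

lemma inv_left_apply (a : Wr G S ι) (i : ι) :
    (a⁻¹).left i = (a.left (a.right • i))⁻¹ := by
  have h := congrFun (congrArg SemidirectProduct.left (inv_mul_cancel a)) i
  rw [mul_left_apply] at h
  have h2 : (a⁻¹).right = a.right⁻¹ := rfl
  rw [h2, inv_inv] at h
  exact eq_inv_of_mul_eq_one_left h

/-- Coordinates of short elements are short. -/
lemma left_mem_ball {X : Set G} {T : Set (Wr G S ι)}
    (hT : ∀ z ∈ T, ∀ i, z.left i ∈ X ∨ (z.left i)⁻¹ ∈ X ∨ z.left i = 1) (n : ℕ) (w : Wr G S ι)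
    (hw : w ∈ ball T n) : ∀ i, w.left i ∈ ball X n := by
  refine ball_induction (X := T) (p := fun n w => ∀ i, w.left i ∈ ball X n) ?_ ?_ n w hw
  · intro n i
    exact one_mem_ball X n
  · intro n x g hx hg h i
    rw [mul_left_apply]
    have key : x.left i ∈ X ∨ (x.left i)⁻¹ ∈ X ∨ x.left i = 1 := by
      rcases hx with hx | hx
      · exact hT x hx i
      · have h1 := hT _ hx (x.right⁻¹ • i)
        have h2 : (x⁻¹).left (x.right⁻¹ • i) = (x.left i)⁻¹ := by
          rw [inv_left_apply, smul_inv_smul]
        rw [h2, inv_inv] at h1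
        rcases h1 with h1 | h1 | h1
        · exact Or.inr (Or.inl h1)
        · exact Or.inl h1
        · exact Or.inr (Or.inr (inv_eq_one.1 h1))
    rcases key with h1 | h1 | h1
    · exact cons_mem_ball (Or.inl h1) (h _)
    · exact cons_mem_ball (Or.inr h1) (h _)
    · rw [h1, one_mul]
      exact ball_mono X (Nat.le_succ n) (h _)

/-- The growth function of a subset of the wreath product. -/
theorem wreath_growth [Finite S] [Finite ι] {X : Set G} (hX : X.Finite) {T : Set (Wr G S ι)}
    (hT : ∀ z ∈ T, ∀ i, z.left i ∈ X ∨ (z.left i)⁻¹ ∈ X ∨ z.left i = 1) (n : ℕ) :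
    (ball T n).ncard ≤ Nat.card S * (ball X n).ncard ^ Nat.card ι := by
  classical
  have hfin : Finite (ball X n) := ball_finite hX n
  let F : ball T n → (ι → ball X n) × S :=
    fun w => (fun i => ⟨w.1.left i, left_mem_ball hT n w.1 w.2 i⟩, w.1.right)
  have hF : Function.Injective F := by
    intro a b h
    apply Subtype.ext
    apply SemidirectProduct.ext
    · funext i
      have := congrFun (congrArg Prod.fst h) i
      exact congrArg Subtype.val this
    · exact congrArg Prod.snd h
  have h1 := Nat.card_le_card_of_injective F hF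
  rw [Nat.card_prod, Nat.card_fun] at h1
  rw [mul_comm]
  exact h1

/-- The same for the subgroup generated by the subset. -/
theorem closure_growth {W : Type*} [Group W] (T : Set W) (n : ℕ) :
    (ball ((closure T).subtype ⁻¹' T) n).ncard = (ball T n).ncard := by
  have h1 : (closure T).subtype '' ((closure T).subtype ⁻¹' T) = T := by
    rw [Set.image_preimage_eq_inter_range]
    apply Set.inter_eq_left.2
    intro x hx
    exact ⟨⟨x, subset_closure hx⟩, rfl⟩
  conv_rhs => rw [← h1, ball_image]
  exact (Set.ncard_image_of_injective _ (closure T).subtype_injective).symm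

lemma closure_pre_eq_top {W : Type*} [Group W] (T : Set W) :
    closure ((closure T).subtype ⁻¹' T) = ⊤ := by
  have := closure_closure_coe_preimage (k := T)
  exact this

/-- If every element of a generating set of `G` is the value at `i₀` of an element of the base
group in `H`, and `G` is not virtually nilpotent, then `H` is not virtually nilpotent. -/
theorem not_vn {X : Set G} (hgen : closure X = ⊤) (H : Subgroup (Wr G S ι)) (i₀ : ι)
    (h : ∀ x ∈ X, ∃ v : ι → G, SemidirectProduct.inl v ∈ H ∧ v i₀ = x)
    (hG : ¬ IsVirtuallyNilpotent G) : ¬ IsVirtuallyNilpotent H := by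
  intro hH
  apply hG
  let L : Subgroup (ι → G) := H.comap SemidirectProduct.inl
  let i : L →* H := (SemidirectProduct.inl : (ι → G) →* Wr G S ι).subgroupComap H
  have hi : Function.Injective i := by
    intro a b hab
    apply Subtype.ext
    have := congrArg Subtype.val hab
    exact SemidirectProduct.inl_injective this
  let f : L →* G := (Pi.evalMonoidHom (fun _ : ι => G) i₀).comp L.subtype
  have hf : Function.Surjective f := by
    rw [← MonoidHom.range_eq_top, eq_top_iff, ← hgen, closure_le]
    intro x hx
    obtain ⟨v, hv, hvx⟩ := h x hx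
    exact ⟨⟨v, hv⟩, hvx⟩
  exact vn_section hH i hi f hf

/-- Conjugation of the base group. -/
lemma conj_inl (s : S) (v : ι → G) :
    (SemidirectProduct.inr s : Wr G S ι) * SemidirectProduct.inl v *
      (SemidirectProduct.inr s)⁻¹ = SemidirectProduct.inl (fun i => v (s⁻¹ • i)) := by
  rw [← map_inv, ← SemidirectProduct.inl_aut]
  rfl

end

end Pool.Agent.Q117.UG
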